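import Pool.Agent.W394.BQN.Stm

/-!
# BQN-QV: the induced map `VV V → VV W` is finite
-/

set_option autoImplicit false

open Polynomial

noncomputable section

namespace Pool.Agent.W565.BQN

open BQ Pool.Agent.W394.BQN

theorem map_mem_S2 {V W : Type} [CommRing V] [IsDomain V] [CommRing W] [IsDomain W]
    (i : V →+* W) {f : V[X]} (hf : f ∈ S2 V) : f.map i ∈ S2 W := by
  have hf1 : f.leadingCoeff = 1 := hf.1
  have hf2 : f.trailingCoeff = 1 := hf.2
  have hm : f.Monic := hf1
  have hm' : (f.map i).Monic := hm.map i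
  refine ⟨hm', ?_⟩
  have h1 : (f.map i).coeff f.natTrailingDegree = 1 := by
    rw [coeff_map]
    have : f.coeff f.natTrailingDegree = 1 := hf2
    rw [this, map_one]
  have h2 : (f.map i).natTrailingDegree = f.natTrailingDegree := by
    apply le_antisymm
    · apply natTrailingDegree_le_of_ne_zero
      rw [h1]
      exact one_ne_zero
    · apply le_natTrailingDegree hm'.ne_zero
      intro m hm
      rw [coeff_map, coeff_eq_zero_of_lt_natTrailingDegree hm, map_zero]
  show (f.map i).coeff (f.map i).natTrailingDegree = 1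
  rw [h2, h1]

theorem t_QV (h : S_INT) : S_QV := by
  intro V W _ _ _ _ i hi
  have hφ : ∀ f : S2 V, IsUnit (((algebraMap W[X] (VV W)).comp (mapRingHom i)) f) := fun f =>
    IsLocalization.map_units (VV W) (⟨(f : V[X]).map i, map_mem_S2 i f.2⟩ : S2 W)
  obtain ⟨i', hi'⟩ : ∃ i' : VV V →+* VV W, ∀ f : V[X],
      i' (algebraMap V[X] (VV V) f) = algebraMap W[X] (VV W) (f.map i) :=
    ⟨IsLocalization.lift (M := S2 V) hφ, fun f => by
      rw [IsLocalization.lift_eq]
      rfl⟩
  refine ⟨i', ?_, hi'⟩
  let a1 : Algebra V W := i.toAlgebra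
  have hfin : Module.Finite V W := hi
  obtain ⟨s, hs⟩ := hfin.fg_top
  show @Module.Finite (VV V) (VV W) _ _ i'.toAlgebra.toModule
  let a2 : Algebra (VV V) (VV W) := i'.toAlgebra
  have hsm : ∀ (a : VV V) (b : VV W), a • b = i' a * b := fun a b => rfl
  classical
  refine ⟨⟨s.image (fun w => algebraMap W[X] (VV W) (C w)), eq_top_iff.2 ?_⟩⟩
  -- constants
  have hC : ∀ w : W, algebraMap W[X] (VV W) (C w) ∈ Submodule.span (VV V)
      (↑(s.image (fun w => algebraMap W[X] (VV W) (C w))) : Set (VV W)) := by
    intro w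
    have hw : w ∈ Submodule.span V (s : Set W) := by
      rw [hs]
      exact Submodule.mem_top
    induction hw using Submodule.span_induction with
    | mem x hx =>
      apply Submodule.subset_span
      rw [Finset.coe_image]
      exact ⟨x, hx, rfl⟩
    | zero =>
      rw [C_0, map_zero]
      exact Submodule.zero_mem _
    | add x y _ _ hx hy =>
      rw [C_add, map_add]
      exact Submodule.add_mem _ hx hy
    | smul v x _ hx =>
      have h1 : (v • x : W) = i v * x := rfl
      have h2 : algebraMap W[X] (VV W) (C (v • x)) =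
          (algebraMap V[X] (VV V) (C v)) • algebraMap W[X] (VV W) (C x) := by
        rw [hsm, hi', map_C, h1, C_mul, map_mul]
      rw [h2]
      exact Submodule.smul_mem _ _ hx
  -- polynomials
  have hP : ∀ c : W[X], algebraMap W[X] (VV W) c ∈ Submodule.span (VV V)
      (↑(s.image (fun w => algebraMap W[X] (VV W) (C w))) : Set (VV W)) := by
    intro c
    induction c using Polynomial.induction_on' with
    | add p q hp hq =>
      rw [map_add]
      exact Submodule.add_mem _ hp hq
    | monomial n w =>
      have h2 : algebraMap W[X] (VV W) (monomial n w) =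
          (algebraMap V[X] (VV V) (X ^ n)) • algebraMap W[X] (VV W) (C w) := by
        rw [hsm, hi', Polynomial.map_pow, map_X, ← map_mul, ← C_mul_X_pow_eq_monomial, mul_comm]
      rw [h2]
      exact Submodule.smul_mem _ _ (hC w)
  intro z _
  obtain ⟨⟨c, t⟩, hz⟩ := IsLocalization.surj (S2 W) z
  have hz' : z * algebraMap W[X] (VV W) (t : W[X]) = algebraMap W[X] (VV W) c := hz
  obtain ⟨g, hg, d, hd⟩ := h V W i hi (t : W[X]) t.2
  have hu : IsUnit (algebraMap V[X] (VV V) g) := IsLocalization.map_units (VV V) (⟨g, hg⟩ : S2 V)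
  obtain ⟨u, hu⟩ := hu
  have h3 : z = (↑u⁻¹ : VV V) • algebraMap W[X] (VV W) (c * d) := by
    have h4 : (algebraMap V[X] (VV V) g) • z = algebraMap W[X] (VV W) (c * d) := by
      rw [hsm, hi', hd, map_mul, map_mul, ← hz']
      ring
    rw [← h4, ← hu, hsm, hsm, ← mul_assoc, ← map_mul, Units.inv_mul, map_one, one_mul]
  rw [h3]
  exact Submodule.smul_mem _ _ (hP _)

end Pool.Agent.W565.BQN
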